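import Pool.Agent.TD.H.Defs

/-! Block H3: the mapping cone. -/

open scoped Topology

namespace Pool.Agent.TD

namespace SHom

variable {B : Type} [TopologicalSpace B] {C D : SCx B} (φ : SHom C D)

/-- The groups of the mapping cone. -/
def ConeG (C D : SCx B) : ℕ → Type
  | 0 => C.G 0
  | q + 1 => C.G (q + 1) × D.G q

instance coneAb (C D : SCx B) : ∀ q, AddCommGroup (ConeG C D q)
  | 0 => inferInstanceAs (AddCommGroup (C.G 0))
  | q + 1 => inferInstanceAs (AddCommGroup (C.G (q + 1) × D.G q))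

/-- The differential of the mapping cone: `(c, e) ↦ (dc, φ c - d e)`. -/
def coneD : ∀ q, ConeG C D q →+ ConeG C D (q + 1)
  | 0 => { toFun := fun c : C.G 0 => ((C.d 0 c, φ.f 0 c) : C.G 1 × D.G 0)
           map_zero' := by
             show ((C.d 0 0, φ.f 0 0) : C.G 1 × D.G 0) = 0
             simp
           map_add' := fun c c' => by
             show ((C.d 0 (_ + _), φ.f 0 (_ + _)) : C.G 1 × D.G 0) = (C.d 0 _, φ.f 0 _) + (C.d 0 _, φ.f 0 _)
             simp }
  | q + 1 => { toFun := fun c : C.G (q + 1) × D.G q =>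
                 ((C.d (q + 1) c.1, φ.f (q + 1) c.1 - D.d q c.2) : C.G (q + 2) × D.G (q + 1))
               map_zero' := by
                 show ((C.d (q + 1) 0, φ.f (q + 1) 0 - D.d q 0) : C.G (q + 2) × D.G (q + 1)) = 0
                 simp
               map_add' := fun c c' => by
                 show ((C.d (q + 1) (_ + _), φ.f (q + 1) (_ + _) - D.d q (_ + _)) :
                   C.G (q + 2) × D.G (q + 1)) = (C.d (q + 1) _, φ.f (q + 1) _ - D.d q _) +
                     (C.d (q + 1) _, φ.f (q + 1) _ - D.d q _)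
                 simp only [map_add, Prod.mk_add_mk]
                 congr 1
                 abel }

/-- The supports of the mapping cone. -/
def coneSupp : ∀ {q}, ConeG C D q → Set B
  | 0, c => C.supp (q := 0) c
  | q + 1, c => C.supp (q := q + 1) c.1 ∪ D.supp (q := q) c.2

theorem h3_left {S T Z : Set B} (h : Disjoint (S ∪ T) Z) : Disjoint S Z :=
  h.mono_left Set.subset_union_left

theorem h3_right {S T Z : Set B} (h : Disjoint (S ∪ T) Z) : Disjoint T Z :=
  h.mono_left Set.subset_union_right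

theorem h3_supp_sub (C : SCx B) {q : ℕ} (c c' : C.G q) :
    C.supp (c - c') ⊆ C.supp c ∪ C.supp c' := by
  rw [sub_eq_add_neg]
  refine (C.supp_add c (-c')).trans ?_
  rw [C.supp_neg]

theorem h3_disj_add (C : SCx B) {q : ℕ} {c c' : C.G q} {Z : Set B}
    (h : Disjoint (C.supp c) Z) (h' : Disjoint (C.supp c') Z) : Disjoint (C.supp (c + c')) Z :=
  (Set.disjoint_union_left.2 ⟨h, h'⟩).mono_left (C.supp_add c c')

theorem h3_disj_sub (C : SCx B) {q : ℕ} {c c' : C.G q} {Z : Set B}
    (h : Disjoint (C.supp c) Z) (h' : Disjoint (C.supp c') Z) : Disjoint (C.supp (c - c')) Z :=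
  (Set.disjoint_union_left.2 ⟨h, h'⟩).mono_left (h3_supp_sub C c c')

theorem coneD_zero (c : C.G 0) :
    φ.coneD 0 (c : ConeG C D 0) = ((C.d 0 c, φ.f 0 c) : C.G 1 × D.G 0) := rfl

theorem coneD_succ (q : ℕ) (c : C.G (q + 1)) (e : D.G q) :
    φ.coneD (q + 1) ((c, e) : ConeG C D (q + 1)) =
      ((C.d (q + 1) c, φ.f (q + 1) c - D.d q e) : C.G (q + 2) × D.G (q + 1)) := rfl

theorem cone_dd : ∀ (q : ℕ) (c : ConeG C D q), φ.coneD (q + 1) (φ.coneD q c) = 0
  | 0, c => by
      change ((C.d 1 (C.d 0 c), φ.f 1 (C.d 0 c) - D.d 0 (φ.f 0 c)) : C.G 2 × D.G 1) = 0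
      rw [C.dd, φ.comm, sub_self]
      rfl
  | q + 1, (c, e) => by
      change ((C.d (q + 2) (C.d (q + 1) c),
        φ.f (q + 2) (C.d (q + 1) c) - D.d (q + 1) (φ.f (q + 1) c - D.d q e)) :
          C.G (q + 3) × D.G (q + 2)) = 0
      rw [C.dd, φ.comm, map_sub, D.dd, sub_zero, sub_self]
      rfl

theorem coneSupp_closed : ∀ {q : ℕ} (c : ConeG C D q), IsClosed (coneSupp c)
  | 0, c => C.closed (q := 0) c
  | q + 1, c => (C.closed (q := q + 1) c.1).union (D.closed (q := q) c.2)

theorem coneSupp_zero : ∀ q : ℕ, coneSupp (0 : ConeG C D q) = ∅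
  | 0 => C.supp_zero 0
  | q + 1 => by
      change C.supp (0 : C.G (q + 1)) ∪ D.supp (0 : D.G q) = ∅
      rw [C.supp_zero, D.supp_zero, Set.empty_union]

theorem coneSupp_add : ∀ {q : ℕ} (c c' : ConeG C D q),
    coneSupp (c + c') ⊆ coneSupp c ∪ coneSupp c'
  | 0, c, c' => C.supp_add (q := 0) c c'
  | q + 1, (c, e), (c', e') => by
      change C.supp (c + c') ∪ D.supp (e + e') ⊆
        (C.supp c ∪ D.supp e) ∪ (C.supp c' ∪ D.supp e')
      refine Set.union_subset ((C.supp_add c c').trans ?_) ((D.supp_add e e').trans ?_)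
      · exact Set.union_subset_union Set.subset_union_left Set.subset_union_left
      · exact Set.union_subset_union Set.subset_union_right Set.subset_union_right

theorem coneSupp_neg : ∀ {q : ℕ} (c : ConeG C D q), coneSupp (-c) = coneSupp c
  | 0, c => C.supp_neg (q := 0) c
  | q + 1, (c, e) => by
      change C.supp (-c) ∪ D.supp (-e) = C.supp c ∪ D.supp e
      rw [C.supp_neg, D.supp_neg]

theorem coneSupp_d : ∀ {q : ℕ} (c : ConeG C D q), coneSupp (φ.coneD q c) ⊆ coneSupp c
  | 0, c => by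
      change C.supp (C.d 0 c) ∪ D.supp (φ.f 0 c) ⊆ C.supp (q := 0) c
      exact Set.union_subset (C.supp_d _) (φ.supp 0 c)
  | q + 1, (c, e) => by
      change C.supp (C.d (q + 1) c) ∪ D.supp (φ.f (q + 1) c - D.d q e) ⊆ C.supp c ∪ D.supp e
      refine Set.union_subset ((C.supp_d c).trans Set.subset_union_left) ?_
      refine (h3_supp_sub D _ _).trans ?_
      exact Set.union_subset_union (φ.supp (q + 1) c) (D.supp_d e)

theorem coneSupp_glue : ∀ {q : ℕ} (Z1 Z2 : Set B), IsCompact Z1 → IsCompact Z2 →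
    ∀ c1 c2 : ConeG C D q, Disjoint (coneSupp (c1 - c2)) (Z1 ∩ Z2) →
      ∃ c : ConeG C D q, Disjoint (coneSupp (c - c1)) Z1 ∧ Disjoint (coneSupp (c - c2)) Z2
  | 0, Z1, Z2, h1, h2, c1, c2, h => C.glue (q := 0) Z1 Z2 h1 h2 c1 c2 h
  | q + 1, Z1, Z2, h1, h2, (c1, e1), (c2, e2), h => by
      change Disjoint (C.supp (c1 - c2) ∪ D.supp (e1 - e2)) (Z1 ∩ Z2) at h
      obtain ⟨c, k1, k2⟩ := C.glue Z1 Z2 h1 h2 c1 c2 (h3_left h)
      obtain ⟨e, l1, l2⟩ := D.glue Z1 Z2 h1 h2 e1 e2 (h3_right h)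
      refine ⟨(c, e), ?_, ?_⟩
      · change Disjoint (C.supp (c - c1) ∪ D.supp (e - e1)) Z1
        exact Set.disjoint_union_left.2 ⟨k1, l1⟩
      · change Disjoint (C.supp (c - c2) ∪ D.supp (e - e2)) Z2
        exact Set.disjoint_union_left.2 ⟨k2, l2⟩

/-- The mapping cone. -/
def cone : SCx B where
  G := ConeG C D
  ab := coneAb C D
  d := φ.coneD
  dd := φ.cone_dd
  supp := coneSupp
  closed := coneSupp_closed
  supp_zero := coneSupp_zero
  supp_add := coneSupp_add
  supp_neg := coneSupp_neg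
  supp_d := φ.coneSupp_d
  glue := coneSupp_glue

theorem cone_complete (hC : C.Complete) (hD : D.Complete) : φ.cone.Complete := by
  constructor
  · intro K q c h
    match q, c, h with
    | 0, c, h => exact hC.inf K 0 c h
    | q + 1, c, h =>
      have h1 : ∀ n, Disjoint (C.supp ((c (n + 1)).1 - (c n).1)) (K n) := fun n => h3_left (h n)
      have h2 : ∀ n, Disjoint (D.supp ((c (n + 1)).2 - (c n).2)) (K n) := fun n =>
        h3_right (h n)
      obtain ⟨a, ha⟩ := hC.inf K (q + 1) (fun n => (c n).1) h1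
      obtain ⟨b, hb⟩ := hD.inf K q (fun n => (c n).2) h2
      exact ⟨(a, b), fun n => Set.disjoint_union_left.2 ⟨ha n, hb n⟩⟩
  · intro q c h
    match q, c, h with
    | 0, c, h => exact hC.sep 0 c h
    | q + 1, (c, e), h =>
      change C.supp c ∪ D.supp e = ∅ at h
      obtain ⟨h1, h2⟩ := Set.union_empty_iff.1 h
      have k1 := hC.sep (q + 1) c h1
      have k2 := hD.sep q e h2
      rw [k1, k2]
      rfl

/-- Quasi-isomorphism implies exactness of the cone. -/
theorem cone_exNear {Z : Set B} (h : φ.QIso Z) : φ.cone.ExNear Z := by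
  intro q c hc
  match q, c, hc with
  | 0, c, hc =>
    change Disjoint (C.supp (C.d 0 c) ∪ D.supp (φ.f 0 c)) Z at hc
    exact h.1 0 c (h3_left hc) (h3_right hc)
  | q + 1, (c, e), hc =>
    change Disjoint (C.supp (C.d (q + 1) c) ∪ D.supp (φ.f (q + 1) c - D.d q e)) Z at hc
    have hc1 : Disjoint (C.supp (C.d (q + 1) c)) Z := h3_left hc
    have hc2 : Disjoint (D.supp (φ.f (q + 1) c - D.d q e)) Z := h3_right hc
    obtain ⟨c', hc'⟩ := h.1 (q + 1) c hc1 ⟨e, hc2⟩
    have he' : D.Cl Z q (e - φ.f q c') := by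
      change Disjoint (D.supp (D.d q (e - φ.f q c'))) Z
      have h1 : D.d q (e - φ.f q c') =
          φ.f (q + 1) (c - C.d q c') - (φ.f (q + 1) c - D.d q e) := by
        rw [map_sub, map_sub, φ.comm]
        abel
      rw [h1]
      exact h3_disj_sub D (hc'.mono_left (φ.supp _ _)) hc2
    obtain ⟨c'', k1, k2⟩ := h.2 q _ he'
    have k3 : Disjoint (C.supp (c - C.d q (c' + c''))) Z := by
      have h1 : c - C.d q (c' + c'') = (c - C.d q c') - C.d q c'' := by
        rw [map_add]
        abel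
      rw [h1]
      exact h3_disj_sub C hc' k1
    match q, c, e, c', c'', k2, k3 with
    | 0, c, e, c', c'', k2, k3 =>
      refine ⟨(c' + c'' : C.G 0), ?_⟩
      change Disjoint (C.supp (c - C.d 0 (c' + c'')) ∪ D.supp (e - φ.f 0 (c' + c''))) Z
      refine Set.disjoint_union_left.2 ⟨k3, ?_⟩
      have h1 : e - φ.f 0 (c' + c'') = e - φ.f 0 c' - φ.f 0 c'' := by
        rw [map_add]
        abel
      rw [h1]
      exact k2
    | q + 1, c, e, c', c'', k2, k3 =>
      obtain ⟨g, hg⟩ := k2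
      refine ⟨((c' + c'', -g) : C.G (q + 1) × D.G q), ?_⟩
      change Disjoint (C.supp (c - C.d (q + 1) (c' + c'')) ∪
        D.supp (e - (φ.f (q + 1) (c' + c'') - D.d q (-g)))) Z
      refine Set.disjoint_union_left.2 ⟨k3, ?_⟩
      have h1 : e - (φ.f (q + 1) (c' + c'') - D.d q (-g)) =
          e - φ.f (q + 1) c' - φ.f (q + 1) c'' - D.d q g := by
        rw [map_add, map_neg]
        abel
      rw [h1]
      exact hg

theorem qiso_of_cone {Z : Set B} (h : φ.cone.ExNear Z) : φ.QIso Z := by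
  constructor
  · intro q c hc hb
    match q, c, hc, hb with
    | 0, c, hc, hb =>
      exact h 0 c (Set.disjoint_union_left.2 ⟨hc, hb⟩)
    | q + 1, c, hc, hb =>
      obtain ⟨e, he⟩ := hb
      obtain ⟨b, hb⟩ := h (q + 1) ((c, e) : C.G (q + 1) × D.G q)
        (Set.disjoint_union_left.2 ⟨hc, he⟩)
      match q, c, e, b, hb with
      | 0, c, e, b, hb => exact ⟨b, h3_left hb⟩
      | q + 1, c, e, b, hb => exact ⟨b.1, h3_left hb⟩
  · intro q e he
    have hcl : φ.cone.Cl Z (q + 1) ((0, e) : C.G (q + 1) × D.G q) := by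
      change Disjoint (C.supp (C.d (q + 1) 0) ∪ D.supp (φ.f (q + 1) 0 - D.d q e)) Z
      rw [map_zero, map_zero, C.supp_zero, Set.empty_union, zero_sub, D.supp_neg]
      exact he
    obtain ⟨b, hb⟩ := h (q + 1) _ hcl
    match q, e, b, hb with
    | 0, e, b, hb =>
      change Disjoint (C.supp (0 - C.d 0 b) ∪ D.supp (e - φ.f 0 b)) Z at hb
      refine ⟨b, ?_, h3_right hb⟩
      have h1 := h3_left hb
      rw [zero_sub, C.supp_neg] at h1
      exact h1
    | q + 1, e, (b1, b2), hb =>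
      change Disjoint (C.supp (0 - C.d (q + 1) b1) ∪
        D.supp (e - (φ.f (q + 1) b1 - D.d q b2))) Z at hb
      refine ⟨b1, ?_, -b2, ?_⟩
      · have h1 := h3_left hb
        rw [zero_sub, C.supp_neg] at h1
        exact h1
      · have h1 := h3_right hb
        have h2 : e - φ.f (q + 1) b1 - D.d q (-b2) = e - (φ.f (q + 1) b1 - D.d q b2) := by
          rw [map_neg]
          abel
        rw [h2]
        exact h1

theorem qisoG_of_cone (h : ∀ q (c : φ.cone.G q), φ.cone.d q c = 0 → φ.cone.BdG q c) :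
    φ.QIsoG := by
  constructor
  · intro q c hc hb
    match q, c, hc, hb with
    | 0, c, hc, hb =>
      refine h 0 c ?_
      change ((C.d 0 c, φ.f 0 c) : C.G 1 × D.G 0) = 0
      rw [hc, show φ.f 0 c = 0 from hb]
      rfl
    | q + 1, c, hc, hb =>
      obtain ⟨e, he⟩ := hb
      have h1 : φ.cone.d (q + 1) ((c, e) : C.G (q + 1) × D.G q) = 0 := by
        change ((C.d (q + 1) c, φ.f (q + 1) c - D.d q e) : C.G (q + 2) × D.G (q + 1)) = 0
        rw [hc, he, sub_self]
        rfl
      obtain ⟨b, hb⟩ := h (q + 1) _ h1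
      match q, c, e, b, hb with
      | 0, c, e, b, hb => exact ⟨b, congrArg Prod.fst hb⟩
      | q + 1, c, e, b, hb => exact ⟨b.1, congrArg Prod.fst hb⟩
  · intro q e he
    have hcl : φ.cone.d (q + 1) ((0, e) : C.G (q + 1) × D.G q) = 0 := by
      change ((C.d (q + 1) 0, φ.f (q + 1) 0 - D.d q e) : C.G (q + 2) × D.G (q + 1)) = 0
      rw [map_zero, map_zero, he, sub_self]
      rfl
    obtain ⟨b, hb⟩ := h (q + 1) _ hcl
    match q, e, b, hb with
    | 0, e, b, hb =>
      have h1 : (0 : C.G 1) = C.d 0 b := congrArg Prod.fst hb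
      have h2 : e = φ.f 0 b := congrArg Prod.snd hb
      refine ⟨b, h1.symm, ?_⟩
      change e - φ.f 0 b = 0
      rw [h2, sub_self]
    | q + 1, e, (b1, b2), hb =>
      have h1 : (0 : C.G (q + 2)) = C.d (q + 1) b1 := congrArg Prod.fst hb
      have h2 : e = φ.f (q + 1) b1 - D.d q b2 := congrArg Prod.snd hb
      refine ⟨b1, h1.symm, -b2, ?_⟩
      rw [h2, map_neg]
      abel

theorem qisoC_of_cone (h : ∀ q (c : φ.cone.G q), IsCompact (φ.cone.supp c) →
    φ.cone.d q c = 0 → φ.cone.BdC q c) : φ.QIsoC := by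
  constructor
  · intro q c hk hc hb
    match q, c, hk, hc, hb with
    | 0, c, hk, hc, hb =>
      refine h 0 c hk ?_
      change ((C.d 0 c, φ.f 0 c) : C.G 1 × D.G 0) = 0
      rw [hc, show φ.f 0 c = 0 from hb]
      rfl
    | q + 1, c, hk, hc, hb =>
      obtain ⟨e, hke, he⟩ := hb
      have h1 : φ.cone.d (q + 1) ((c, e) : C.G (q + 1) × D.G q) = 0 := by
        change ((C.d (q + 1) c, φ.f (q + 1) c - D.d q e) : C.G (q + 2) × D.G (q + 1)) = 0
        rw [hc, he, sub_self]
        rfl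
      obtain ⟨b, hkb, hb⟩ := h (q + 1) ((c, e) : C.G (q + 1) × D.G q) (hk.union hke) h1
      match q, c, e, b, hkb, hb with
      | 0, c, e, b, hkb, hb => exact ⟨b, hkb, congrArg Prod.fst hb⟩
      | q + 1, c, e, b, hkb, hb =>
        exact ⟨b.1, hkb.of_isClosed_subset (C.closed b.1) Set.subset_union_left,
          congrArg Prod.fst hb⟩
  · intro q e hke he
    have hcl : φ.cone.d (q + 1) ((0, e) : C.G (q + 1) × D.G q) = 0 := by
      change ((C.d (q + 1) 0, φ.f (q + 1) 0 - D.d q e) : C.G (q + 2) × D.G (q + 1)) = 0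
      rw [map_zero, map_zero, he, sub_self]
      rfl
    have hkc : IsCompact (φ.cone.supp (q := q + 1) ((0, e) : C.G (q + 1) × D.G q)) := by
      change IsCompact (C.supp (0 : C.G (q + 1)) ∪ D.supp e)
      rw [C.supp_zero, Set.empty_union]
      exact hke
    obtain ⟨b, hkb, hb⟩ := h (q + 1) _ hkc hcl
    match q, e, b, hkb, hb with
    | 0, e, b, hkb, hb =>
      have h1 : (0 : C.G 1) = C.d 0 b := congrArg Prod.fst hb
      have h2 : e = φ.f 0 b := congrArg Prod.snd hb
      refine ⟨b, hkb, h1.symm, ?_⟩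
      change e - φ.f 0 b = 0
      rw [h2, sub_self]
    | q + 1, e, (b1, b2), hkb, hb =>
      change IsCompact (C.supp b1 ∪ D.supp b2) at hkb
      have h1 : (0 : C.G (q + 2)) = C.d (q + 1) b1 := congrArg Prod.fst hb
      have h2 : e = φ.f (q + 1) b1 - D.d q b2 := congrArg Prod.snd hb
      refine ⟨b1, hkb.of_isClosed_subset (C.closed b1) Set.subset_union_left, h1.symm, -b2, ?_, ?_⟩
      · rw [D.supp_neg]
        exact hkb.of_isClosed_subset (D.closed b2) Set.subset_union_right
      · rw [h2, map_neg]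
        abel

end SHom

end Pool.Agent.TD
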