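import Pool.Agent.TD.H.H2
import Pool.Agent.TD.H.H3

/-! Block H4: quasi-isomorphisms at points are quasi-isomorphisms near compact sets, globally and with
compact supports. -/

open scoped Topology

namespace Pool.Agent.TD

namespace SHom

variable {B : Type} [TopologicalSpace B] {C D : SCx B} (φ : SHom C D)

theorem qiso_near [T2Space B] {Z : Set B} (hZ : IsCompact Z) (h : ∀ b ∈ Z, φ.QIso {b}) :
    φ.QIso Z :=
  φ.qiso_of_cone (φ.cone.exNear_of_points hZ fun b hb => φ.cone_exNear (h b hb))

theorem qiso_global [T2Space B] (hC : C.Complete) (hD : D.Complete) (K : CompactExhaustion B)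
    (h : ∀ b, φ.QIso {b}) : φ.QIsoG :=
  φ.qisoG_of_cone (φ.cone.ex_global (φ.cone_complete hC hD) K fun b => φ.cone_exNear (h b))

theorem qiso_compact [T2Space B] (hC : C.Complete) (hD : D.Complete) (K : CompactExhaustion B)
    (h : ∀ b, φ.QIso {b}) : φ.QIsoC :=
  φ.qisoC_of_cone (φ.cone.ex_compact (φ.cone_complete hC hD) K fun b => φ.cone_exNear (h b))

end SHom

end Pool.Agent.TD
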