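import Pool.Agent.TD.H.Defs

/-! Block H: push forward of a complex with supports along a map which is proper on a closed set. -/

open scoped Topology

namespace Pool.Agent.TD

/-- `π : X → B` is continuous, `S` is closed and `π` is proper on `S`. -/
structure ProperOn {X B : Type} [TopologicalSpace X] [TopologicalSpace B] (S : Set X)
    (π : X → B) : Prop where
  cont : Continuous π
  clS : IsClosed S
  comp : ∀ Z : Set B, IsCompact Z → IsCompact (S ∩ π ⁻¹' Z)
  closed : ∀ C : Set X, IsClosed C → IsClosed (π '' (C ∩ S))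

/-- For `B` locally compact Hausdorff, compactness of the preimages of compact sets is enough. -/
theorem properOn_of_comp {X B : Type} [TopologicalSpace X] [TopologicalSpace B]
    [LocallyCompactSpace B] [T2Space B] {S : Set X} {π : X → B} (h1 : Continuous π)
    (h2 : IsClosed S) (h3 : ∀ Z : Set B, IsCompact Z → IsCompact (S ∩ π ⁻¹' Z)) :
    ProperOn S π := by
  refine ⟨h1, h2, h3, fun C hC => ?_⟩
  rw [← isOpen_compl_iff, isOpen_iff_mem_nhds]
  intro b hb
  obtain ⟨Z, hZ, hbZ⟩ := exists_compact_mem_nhds b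
  have hK : IsCompact (π '' (C ∩ (S ∩ π ⁻¹' Z))) := ((h3 Z hZ).inter_left hC).image h1
  have hbK : b ∈ (π '' (C ∩ (S ∩ π ⁻¹' Z)))ᶜ := by
    rintro ⟨z, ⟨hzC, hzS, -⟩, rfl⟩
    exact hb ⟨z, ⟨hzC, hzS⟩, rfl⟩
  filter_upwards [hbZ, hK.isClosed.isOpen_compl.mem_nhds hbK] with y hy1 hy2
  rintro ⟨z, ⟨hzC, hzS⟩, rfl⟩
  exact hy2 ⟨z, ⟨hzC, hzS, hy1⟩, rfl⟩

namespace SCx

variable {X B : Type} [TopologicalSpace X] [TopologicalSpace B] (C : SCx X) {S : Set X}
  {π : X → B}

/-- Elements which vanish near `S`. -/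
def N (S : Set X) (q : ℕ) : AddSubgroup (C.G q) where
  carrier := {c | Disjoint (C.supp c) S}
  zero_mem' := by
    show Disjoint (C.supp 0) S
    rw [C.supp_zero]; exact Set.empty_disjoint S
  add_mem' := by
    intro c c' h h'
    exact (Set.disjoint_union_left.2 ⟨h, h'⟩).mono_left (C.supp_add c c')
  neg_mem' := by
    intro c h
    show Disjoint (C.supp (-c)) S
    rw [C.supp_neg]; exact h

/-- Sections over `S`. -/
def PG (S : Set X) (q : ℕ) : Type := C.G q ⧸ C.N S q

instance (S : Set X) (q : ℕ) : AddCommGroup (C.PG S q) :=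
  inferInstanceAs (AddCommGroup (C.G q ⧸ C.N S q))

/-- The class of an element. -/
def cls (S : Set X) (q : ℕ) : C.G q →+ C.PG S q := QuotientAddGroup.mk' (C.N S q)

lemma cls_surjective (q : ℕ) : Function.Surjective (C.cls S q) :=
  QuotientAddGroup.mk'_surjective _

lemma cls_eq_zero {q : ℕ} {c : C.G q} : C.cls S q c = 0 ↔ Disjoint (C.supp c) S := by
  unfold cls
  exact (QuotientAddGroup.eq_zero_iff c)

/-- The part in `S` of the support of a class. -/
def pSupp (S : Set X) {q : ℕ} (c : C.PG S q) : Set X := {z | z ∈ S ∧ ∀ c', C.cls S q c' = c → z ∈ C.supp c'}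

theorem pSupp_cls {q : ℕ} (c : C.G q) : C.pSupp S (C.cls S q c) = C.supp c ∩ S := by
  ext z
  constructor
  · rintro ⟨hz, h⟩
    exact ⟨h c rfl, hz⟩
  · rintro ⟨hz, hzS⟩
    refine ⟨hzS, fun c' hc' => ?_⟩
    have h0 : C.cls S q (c - c') = 0 := by rw [map_sub, hc', sub_self]
    have h1 := C.supp_add (c - c') c'
    rw [sub_add_cancel] at h1
    rcases h1 hz with h | h
    · exact absurd hzS (Set.disjoint_left.mp (C.cls_eq_zero.mp h0) h)
    · exact h

omit [TopologicalSpace X] [TopologicalSpace B] in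
/-- Disjointness upstairs and downstairs. -/
theorem disj_iff {A : Set X} {Z : Set B} :
    Disjoint (π '' (A ∩ S)) Z ↔ Disjoint A (S ∩ π ⁻¹' Z) := by
  rw [Set.disjoint_left, Set.disjoint_left]
  constructor
  · rintro h z hz ⟨hzS, hzZ⟩
    exact h ⟨z, ⟨hz, hzS⟩, rfl⟩ hzZ
  · rintro h _ ⟨z, ⟨hz, hzS⟩, rfl⟩ hzZ
    exact h hz ⟨hzS, hzZ⟩

/-- The differential on sections over `S`. -/
def pd (S : Set X) (q : ℕ) : C.PG S q →+ C.PG S (q + 1) :=
  QuotientAddGroup.map (C.N S q) (C.N S (q + 1)) (C.d q) (fun c hc =>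
    (show Disjoint (C.supp c) S from hc).mono_left (C.supp_d c))

@[simp] lemma pd_cls (q : ℕ) (c : C.G q) : C.pd S q (C.cls S q c) = C.cls S (q + 1) (C.d q c) := rfl

/-- The push forward of the complex of sections over `S`. -/
def push (h : ProperOn S π) : SCx B where
  G := C.PG S
  d := C.pd S
  dd := by
    intro q c
    obtain ⟨c, rfl⟩ := C.cls_surjective q c
    rw [pd_cls, pd_cls, C.dd, map_zero]
  supp c := π '' (C.pSupp S c)
  closed := by
    intro q c
    obtain ⟨c, rfl⟩ := C.cls_surjective q c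
    rw [pSupp_cls]
    exact h.closed _ (C.closed c)
  supp_zero := by
    intro q
    have h0 : (0 : C.PG S q) = C.cls S q 0 := (map_zero _).symm
    rw [h0, pSupp_cls, C.supp_zero, Set.empty_inter, Set.image_empty]
  supp_add := by
    intro q c c'
    obtain ⟨c, rfl⟩ := C.cls_surjective q c
    obtain ⟨c', rfl⟩ := C.cls_surjective q c'
    rw [← map_add, pSupp_cls, pSupp_cls, pSupp_cls, ← Set.image_union, ← Set.union_inter_distrib_right]
    exact Set.image_mono (Set.inter_subset_inter_left _ (C.supp_add c c'))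
  supp_neg := by
    intro q c
    obtain ⟨c, rfl⟩ := C.cls_surjective q c
    rw [← map_neg, pSupp_cls, pSupp_cls, C.supp_neg]
  supp_d := by
    intro q c
    obtain ⟨c, rfl⟩ := C.cls_surjective q c
    rw [pd_cls, pSupp_cls, pSupp_cls]
    exact Set.image_mono (Set.inter_subset_inter_left _ (C.supp_d c))
  glue := by
    intro q Z1 Z2 h1 h2 c1 c2 hd
    obtain ⟨c1, rfl⟩ := C.cls_surjective q c1
    obtain ⟨c2, rfl⟩ := C.cls_surjective q c2
    rw [← map_sub, pSupp_cls, disj_iff] at hd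
    obtain ⟨c, hc1, hc2⟩ := C.glue (S ∩ π ⁻¹' Z1) (S ∩ π ⁻¹' Z2) (h.comp Z1 h1) (h.comp Z2 h2)
      c1 c2 (hd.mono_right (by
        rintro z ⟨⟨h1, h2⟩, -, h3⟩
        exact ⟨h1, h2, h3⟩))
    refine ⟨C.cls S q c, ?_, ?_⟩
    · rw [← map_sub, pSupp_cls, disj_iff]
      exact hc1
    · rw [← map_sub, pSupp_cls, disj_iff]
      exact hc2

theorem push_supp (h : ProperOn S π) {q : ℕ} (c : C.G q) :
    (C.push h).supp (q := q) (C.cls S q c) = π '' (C.supp c ∩ S) := by
  show π '' (C.pSupp S (C.cls S q c)) = _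
  rw [pSupp_cls]

theorem push_Cl (h : ProperOn S π) {q : ℕ} (Z : Set B) (c : C.G q) :
    (C.push h).Cl Z q (C.cls S q c) ↔ C.Cl (S ∩ π ⁻¹' Z) q c := by
  show Disjoint (π '' (C.pSupp S (C.cls S (q + 1) (C.d q c)))) Z ↔ _
  rw [pSupp_cls, disj_iff]
  rfl

theorem push_Bd (h : ProperOn S π) {q : ℕ} (Z : Set B) (c : C.G q) :
    (C.push h).Bd Z q (C.cls S q c) ↔ C.Bd (S ∩ π ⁻¹' Z) q c := by
  cases q with
  | zero =>
    show Disjoint (π '' (C.pSupp S (C.cls S 0 c))) Z ↔ _
    rw [pSupp_cls, disj_iff]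
    rfl
  | succ q =>
    have key : ∀ e : C.G q, Disjoint (π '' (C.pSupp S (C.cls S (q + 1) c
        - C.cls S (q + 1) (C.d q e)))) Z ↔ Disjoint (C.supp (c - C.d q e)) (S ∩ π ⁻¹' Z) := by
      intro e
      rw [← map_sub, pSupp_cls, disj_iff]
    constructor
    · rintro ⟨e, he⟩
      obtain ⟨e, rfl⟩ := C.cls_surjective q e
      exact ⟨e, (key e).mp he⟩
    · rintro ⟨e, he⟩
      exact ⟨C.cls S q e, (key e).mpr he⟩

/-- For `S` = everything the push forward is complete if the complex is. -/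
theorem push_complete (h : ProperOn (Set.univ : Set X) π) (hC : C.Complete) :
    (C.push h).Complete := by
  constructor
  · intro K q (c : ℕ → C.PG Set.univ q) hc
    have hc2 : ∀ n, Disjoint (π '' (C.pSupp Set.univ (c (n + 1) - c n))) (K n) := hc
    have hs : ∀ n, ∃ c' : C.G q, C.cls Set.univ q c' = c n := fun n => C.cls_surjective q (c n)
    choose c' hc' using hs
    let K' : CompactExhaustion X :=
      { toFun := fun n => Set.univ ∩ π ⁻¹' (K n)
        isCompact' := fun n => h.comp _ (K.isCompact n)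
        subset_interior_succ' := fun n => by
          rintro z ⟨-, hz⟩
          refine mem_interior_iff_mem_nhds.mpr ?_
          have h1 : K (n + 1) ∈ 𝓝 (π z) :=
            mem_interior_iff_mem_nhds.mp (K.subset_interior_succ n hz)
          filter_upwards [h.cont.continuousAt.preimage_mem_nhds h1] with y hy
          exact ⟨Set.mem_univ _, hy⟩
        iUnion_eq' := by
          refine Set.eq_univ_of_forall fun z => ?_
          have h1 : π z ∈ ⋃ n, K n := by
            rw [K.iUnion_eq]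
            exact Set.mem_univ _
          obtain ⟨n, hn⟩ := Set.mem_iUnion.mp h1
          exact Set.mem_iUnion.mpr ⟨n, Set.mem_univ _, hn⟩ }
    have hd : ∀ n, Disjoint (C.supp (c' (n + 1) - c' n)) (K' n) := by
      intro n
      have h1 := hc2 n
      rw [← hc', ← hc', ← map_sub, pSupp_cls, disj_iff] at h1
      exact h1
    obtain ⟨c₀, hc₀⟩ := hC.inf K' q c' hd
    refine ⟨C.cls Set.univ q c₀, fun n => ?_⟩
    show Disjoint (π '' (C.pSupp Set.univ (C.cls Set.univ q c₀ - c n))) (K n)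
    rw [← hc', ← map_sub, pSupp_cls, disj_iff]
    exact hc₀ n
  · intro q c hc
    have hc1 : π '' (C.pSupp Set.univ c) = ∅ := hc
    obtain ⟨c, rfl⟩ := C.cls_surjective q c
    rw [pSupp_cls, Set.image_eq_empty, Set.inter_univ] at hc1
    rw [hC.sep q c hc1]
    exact map_zero _

/-- Product of two complexes. -/
def prod (C D : SCx X) : SCx X where
  G q := C.G q × D.G q
  d q := (C.d q).prodMap (D.d q)
  dd q c := Prod.ext (C.dd q c.1) (D.dd q c.2)
  supp c := C.supp c.1 ∪ D.supp c.2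
  closed := by
    intro q c
    exact (C.closed c.1).union (D.closed c.2)
  supp_zero := by
    intro q
    show C.supp (0 : C.G q) ∪ D.supp (0 : D.G q) = ∅
    rw [C.supp_zero, D.supp_zero, Set.union_empty]
  supp_add := by
    intro q c c'
    refine (Set.union_subset_union (C.supp_add c.1 c'.1) (D.supp_add c.2 c'.2)).trans ?_
    rw [Set.union_union_union_comm]
  supp_neg := by
    intro q c
    show C.supp (-c.1) ∪ D.supp (-c.2) = _
    rw [C.supp_neg, D.supp_neg]
  supp_d := by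
    intro q c
    exact Set.union_subset_union (C.supp_d c.1) (D.supp_d c.2)
  glue := by
    intro q Z1 Z2 h1 h2 c1 c2 hd
    have hd' : Disjoint (C.supp (c1.1 - c2.1) ∪ D.supp (c1.2 - c2.2)) (Z1 ∩ Z2) := hd
    rw [Set.disjoint_union_left] at hd'
    obtain ⟨a, ha1, ha2⟩ := C.glue Z1 Z2 h1 h2 c1.1 c2.1 hd'.1
    obtain ⟨b, hb1, hb2⟩ := D.glue Z1 Z2 h1 h2 c1.2 c2.2 hd'.2
    exact ⟨(a, b), Set.disjoint_union_left.mpr ⟨ha1, hb1⟩, Set.disjoint_union_left.mpr ⟨ha2, hb2⟩⟩

theorem prod_complete {C D : SCx X} (hC : C.Complete) (hD : D.Complete) :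
    (C.prod D).Complete := by
  constructor
  · intro K q c hc
    have hc' : ∀ n, Disjoint (C.supp ((c (n + 1)).1 - (c n).1) ∪ D.supp ((c (n + 1)).2 - (c n).2))
      (K n) := hc
    obtain ⟨a, ha⟩ := hC.inf K q (fun n => (c n).1) fun n => (Set.disjoint_union_left.mp (hc' n)).1
    obtain ⟨b, hb⟩ := hD.inf K q (fun n => (c n).2) fun n => (Set.disjoint_union_left.mp (hc' n)).2
    exact ⟨(a, b), fun n => Set.disjoint_union_left.mpr ⟨ha n, hb n⟩⟩
  · intro q c hc
    have hc' : C.supp c.1 ∪ D.supp c.2 = ∅ := hc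
    rw [Set.union_empty_iff] at hc'
    exact Prod.ext (hC.sep q c.1 hc'.1) (hD.sep q c.2 hc'.2)

end SCx

end Pool.Agent.TD
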