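import Pool.Agent.TD.A3
import Pool.Agent.TD.H.H4
import Pool.Agent.TD.H.Push

/-! Block H: the complexes with supports of a space with log functions. -/

open scoped Topology

namespace Pool.Agent.TD

namespace LogSpace

variable {X Φ : Type} [TopologicalSpace X] (L : LogSpace X Φ)

/-- `Disjoint (supp c) Z` says that `c` vanishes at all points of `Z` (auxiliary form). -/
theorem disj_supp {p q : ℕ} (c : L.G p q) (Z : Set X) :
    Disjoint (L.supp c) Z ↔ ∀ z ∈ Z, c.1 z = 0 := by
  rw [Set.disjoint_left]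
  constructor
  · intro h z hz
    by_contra hc
    exact h hc hz
  · intro h z hc hz
    exact hc (h z hz)

theorem disj_supp_sub {p q : ℕ} (c c' : L.G p q) (Z : Set X) :
    Disjoint (L.supp (c - c')) Z ↔ ∀ z ∈ Z, c.1 z = c'.1 z := by
  rw [disj_supp]
  refine forall₂_congr fun z _ => ?_
  have h : (c - c').1 z = c.1 z - c'.1 z := rfl
  rw [h, sub_eq_zero]

/-- The complex of global sections of the sheaves of forms of type `(p, *)`. -/
noncomputable def cx [LocallyCompactSpace X] [T2Space X] (hC : L.CutOff) (p : ℕ) : SCx X where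
  G q := L.G p q
  d q := (L.ddG p q).toAddMonoidHom
  dd q c := L.ddG_ddG c
  supp c := L.supp c
  closed c := L.isClosed_supp c
  supp_zero := by
    intro q
    refine Set.eq_empty_iff_forall_notMem.2 fun z hz => hz ?_
    rfl
  supp_add := by
    intro q c c' z hz
    by_contra h
    rw [Set.mem_union, not_or] at h
    have h1 : c.1 z = 0 := by
      by_contra h2
      exact h.1 h2
    have h3 : c'.1 z = 0 := by
      by_contra h2
      exact h.2 h2
    refine hz ?_
    show c.1 z + c'.1 z = 0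
    rw [h1, h3, add_zero]
  supp_neg := by
    intro q c
    ext z
    show (-c.1 z ≠ 0) ↔ (c.1 z ≠ 0)
    rw [neg_ne_zero]
  supp_d c := L.supp_ddG c
  glue := by
    intro q Z1 Z2 h1 h2 c1 c2 h
    obtain ⟨c, e1, e2⟩ := L.glue hC h1 h2 c1 c2 ((L.disj_supp_sub c1 c2 _).1 h)
    exact ⟨c, (L.disj_supp_sub c c1 _).2 e1, (L.disj_supp_sub c c2 _).2 e2⟩

variable [LocallyCompactSpace X] [T2Space X] (hC : L.CutOff) (p : ℕ)

theorem cx_complete : (L.cx hC p).Complete := by
  constructor
  · intro K q c h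
    have h' : ∀ n, ∀ z ∈ K n, (c (n + 1)).1 z = (c n).1 z := fun n =>
      (L.disj_supp_sub (c (n + 1)) (c n) _).1 (h n)
    have hmono : Monotone fun n => interior (K n) := fun m n hmn =>
      interior_mono (K.subset hmn)
    have huni : ⋃ n, interior (K n) = Set.univ := by
      refine Set.eq_univ_of_forall fun z => ?_
      have h1 : z ∈ ⋃ n, K n := by
        rw [K.iUnion_eq]
        exact Set.mem_univ z
      obtain ⟨n, hn⟩ := Set.mem_iUnion.1 h1
      exact Set.mem_iUnion.2 ⟨n + 1, K.subset_interior_succ n hn⟩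
    obtain ⟨c', hc'⟩ := L.inf_glue (fun n => interior (K n)) (fun n => isOpen_interior) hmono huni
      c (fun n z hz => h' n z (interior_subset hz))
    refine ⟨c', fun n => (L.disj_supp_sub c' (c n) _).2 fun z hz => ?_⟩
    exact (hc' (n + 1) z (K.subset_interior_succ n hz)).trans (h' n z hz)
  · intro q c h
    apply Subtype.ext
    funext z
    by_contra hz
    exact Set.notMem_empty z ((show L.supp c = ∅ from h) ▸ hz)

/-- `Disjoint (supp c) Z` says that `c` vanishes at all points of `Z`. -/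
theorem disjoint_supp_iff {q : ℕ} (c : L.G p q) (Z : Set X) :
    Disjoint (L.supp c) Z ↔ ∀ z ∈ Z, c.1 z = 0 := L.disj_supp c Z

theorem cx_Cl_iff (Z : Set X) (q : ℕ) (c : L.G p q) :
    (L.cx hC p).Cl Z q c ↔ ∀ z ∈ Z, L.ddS p q z (c.1 z) = 0 :=
  L.disj_supp (L.ddG p q c) Z

theorem cx_Bd_succ_iff (Z : Set X) (q : ℕ) (c : L.G p (q + 1)) :
    (L.cx hC p).Bd Z (q + 1) c ↔ ∃ e : L.G p q, ∀ z ∈ Z, c.1 z = L.ddS p q z (e.1 z) := by
  constructor
  · rintro ⟨e, he⟩
    exact ⟨e, (L.disj_supp_sub c (L.ddG p q e) Z).1 he⟩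
  · rintro ⟨e, he⟩
    exact ⟨e, (L.disj_supp_sub c (L.ddG p q e) Z).2 he⟩

theorem cx_Bd_zero_iff (Z : Set X) (c : L.G p 0) :
    (L.cx hC p).Bd Z 0 c ↔ ∀ z ∈ Z, c.1 z = 0 :=
  L.disj_supp c Z

/-- Poincaré lemma for the complex: at a point where the tropicalization is locally star shaped,
closed forms of type `(p,q+1)` are boundaries. -/
theorem cx_Bd_of_star {z : X} (hs : L.StarAt z) (q : ℕ) (c : L.G p (q + 1))
    (hc : (L.cx hC p).Cl {z} (q + 1) c) : (L.cx hC p).Bd {z} (q + 1) c := by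
  have h1 : L.ddS p (q + 1) z (c.1 z) = 0 :=
    (L.cx_Cl_iff hC p {z} (q + 1) c).1 hc z (Set.mem_singleton z)
  obtain ⟨e, he⟩ := L.poincare hs (c.1 z) h1
  obtain ⟨θ, h, rfl⟩ := L.exists_germ e
  obtain ⟨c0, hc0⟩ := L.extend_germ hC h
  obtain ⟨h', e'⟩ := hc0.self_of_nhds
  refine (L.cx_Bd_succ_iff hC p {z} q c).2 ⟨c0, fun z' hz' => ?_⟩
  rw [Set.mem_singleton_iff] at hz'
  subst hz'
  rw [e']
  exact he.symm

end LogSpace

end Pool.Agent.TD
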