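import Mathlib

/-! Block H: complexes with supports (global sections of complexes of soft sheaves), abstractly. -/

open scoped Topology

namespace Pool.Agent.TD

/-- A complex `G 0 → G 1 → ...` of abelian groups whose elements have closed supports in `B`, with
gluing along compact sets (softness). -/
structure SCx (B : Type) [TopologicalSpace B] where
  G : ℕ → Type
  [ab : ∀ q, AddCommGroup (G q)]
  d : ∀ q, G q →+ G (q + 1)
  dd : ∀ q (c : G q), d (q + 1) (d q c) = 0
  supp : ∀ {q}, G q → Set B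
  closed : ∀ {q} (c : G q), IsClosed (supp c)
  supp_zero : ∀ q, supp (0 : G q) = ∅
  supp_add : ∀ {q} (c c' : G q), supp (c + c') ⊆ supp c ∪ supp c'
  supp_neg : ∀ {q} (c : G q), supp (-c) = supp c
  supp_d : ∀ {q} (c : G q), supp (d q c) ⊆ supp c
  glue : ∀ {q} (Z1 Z2 : Set B), IsCompact Z1 → IsCompact Z2 → ∀ c1 c2 : G q,
    Disjoint (supp (c1 - c2)) (Z1 ∩ Z2) →
      ∃ c : G q, Disjoint (supp (c - c1)) Z1 ∧ Disjoint (supp (c - c2)) Z2

attribute [instance] SCx.ab

namespace SCx

variable {B : Type} [TopologicalSpace B] (C : SCx B)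

/-- `c` is a boundary near `Z` (in degree `0`: `c = 0` near `Z`). -/
def Bd (Z : Set B) : (q : ℕ) → C.G q → Prop
  | 0, c => Disjoint (C.supp c) Z
  | q + 1, c => ∃ e : C.G q, Disjoint (C.supp (c - C.d q e)) Z

/-- `c` is closed near `Z`. -/
def Cl (Z : Set B) (q : ℕ) (c : C.G q) : Prop := Disjoint (C.supp (C.d q c)) Z

/-- `c` is a boundary (in degree `0`: `c = 0`). -/
def BdG : (q : ℕ) → C.G q → Prop
  | 0, c => c = 0
  | q + 1, c => ∃ e : C.G q, c = C.d q e

/-- `c` is a boundary of an element with compact support. -/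
def BdC : (q : ℕ) → C.G q → Prop
  | 0, c => c = 0
  | q + 1, c => ∃ e : C.G q, IsCompact (C.supp e) ∧ c = C.d q e

/-- Exactness near `Z`. -/
def ExNear (Z : Set B) : Prop := ∀ q (c : C.G q), C.Cl Z q c → C.Bd Z q c

/-- Sections can be glued along an exhaustion, and an element is determined by its germs. -/
structure Complete : Prop where
  inf : ∀ (K : CompactExhaustion B) (q : ℕ) (c : ℕ → C.G q),
    (∀ n, Disjoint (C.supp (c (n + 1) - c n)) (K n)) →
      ∃ c' : C.G q, ∀ n, Disjoint (C.supp (c' - c n)) (K n)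
  sep : ∀ q (c : C.G q), C.supp c = ∅ → c = 0

end SCx

/-- A morphism of complexes with supports. -/
structure SHom {B : Type} [TopologicalSpace B] (C D : SCx B) where
  f : ∀ q, C.G q →+ D.G q
  comm : ∀ q c, f (q + 1) (C.d q c) = D.d q (f q c)
  supp : ∀ q (c : C.G q), D.supp (f q c) ⊆ C.supp c

namespace SHom

variable {B : Type} [TopologicalSpace B] {C D : SCx B} (φ : SHom C D)

/-- `φ` is a quasi-isomorphism near `Z`. -/
def QIso (Z : Set B) : Prop :=
  (∀ q (c : C.G q), C.Cl Z q c → D.Bd Z q (φ.f q c) → C.Bd Z q c) ∧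
  (∀ q (e : D.G q), D.Cl Z q e → ∃ c : C.G q, C.Cl Z q c ∧ D.Bd Z q (e - φ.f q c))

/-- `φ` is a quasi-isomorphism on global sections. -/
def QIsoG : Prop :=
  (∀ q (c : C.G q), C.d q c = 0 → D.BdG q (φ.f q c) → C.BdG q c) ∧
  (∀ q (e : D.G q), D.d q e = 0 → ∃ c : C.G q, C.d q c = 0 ∧ D.BdG q (e - φ.f q c))

/-- `φ` is a quasi-isomorphism on global sections with compact supports. -/
def QIsoC : Prop :=
  (∀ q (c : C.G q), IsCompact (C.supp c) → C.d q c = 0 → D.BdC q (φ.f q c) → C.BdC q c) ∧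
  (∀ q (e : D.G q), IsCompact (D.supp e) → D.d q e = 0 →
    ∃ c : C.G q, IsCompact (C.supp c) ∧ C.d q c = 0 ∧ D.BdC q (e - φ.f q c))

end SHom

end Pool.Agent.TD
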