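import Pool.Agent.TD.H.Defs

/-! Block H1: exactness at points implies exactness near compact sets. -/

open scoped Topology

namespace Pool.Agent.TD

namespace SCx

variable {B : Type} [TopologicalSpace B] (C : SCx B)

theorem supp_sub' {q : ℕ} (c c' : C.G q) : C.supp (c - c') ⊆ C.supp c ∪ C.supp c' := by
  rw [sub_eq_add_neg]
  refine (C.supp_add c (-c')).trans ?_
  rw [C.supp_neg]

/-- If `c - d e` vanishes near `K` and `e' - (e + x)` vanishes near `K`, `d x = 0`, then
`c - d e'` vanishes near `K`. -/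
theorem disj_step {q : ℕ} {K : Set B} {c : C.G (q + 1)} {e e' x : C.G q}
    (h1 : Disjoint (C.supp (c - C.d q e)) K) (h2 : Disjoint (C.supp (e' - (e + x))) K)
    (hx : C.d q x = 0) : Disjoint (C.supp (c - C.d q e')) K := by
  have e1 : c - C.d q e' = (c - C.d q e) - C.d q (e' - (e + x)) := by
    rw [map_sub, map_add, hx]
    abel
  rw [e1]
  refine Set.disjoint_of_subset_left (C.supp_sub' _ _) ?_
  rw [Set.disjoint_union_left]
  exact ⟨h1, Set.disjoint_of_subset_left (C.supp_d _) h2⟩

/-- Gluing two primitives. -/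
theorem glue_prim {Z : Set B} {q : ℕ}
    (IH : ∀ Z' : Set B, IsCompact Z' → Z' ⊆ Z → ∀ c : C.G q, C.Cl Z' q c → C.Bd Z' q c)
    {K1 K2 : Set B} (hK1 : IsCompact K1) (hK2 : IsCompact K2) (hK : IsCompact (K1 ∩ K2))
    (h1 : K1 ⊆ Z) (c : C.G (q + 1))
    (e1 e2 : C.G q) (he1 : Disjoint (C.supp (c - C.d q e1)) K1)
    (he2 : Disjoint (C.supp (c - C.d q e2)) K2) :
    ∃ e : C.G q, Disjoint (C.supp (c - C.d q e)) (K1 ∪ K2) := by
  have hcl : C.Cl (K1 ∩ K2) q (e1 - e2) := by
    have e : C.d q (e1 - e2) = (c - C.d q e2) - (c - C.d q e1) := by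
      rw [map_sub]; abel
    unfold Cl
    rw [e]
    refine Set.disjoint_of_subset_left (C.supp_sub' _ _) ?_
    rw [Set.disjoint_union_left]
    exact ⟨Set.disjoint_of_subset_right Set.inter_subset_right he2,
      Set.disjoint_of_subset_right Set.inter_subset_left he1⟩
  have hbd := IH (K1 ∩ K2) hK (Set.inter_subset_left.trans h1) _ hcl
  have key : ∃ x : C.G q, C.d q x = 0 ∧ Disjoint (C.supp (e1 - (e2 + x))) (K1 ∩ K2) := by
    cases q with
    | zero =>
      refine ⟨0, map_zero _, ?_⟩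
      rw [add_zero]
      exact hbd
    | succ q =>
      obtain ⟨g, hg⟩ := hbd
      refine ⟨C.d q g, C.dd q g, ?_⟩
      rw [← sub_sub]
      exact hg
  obtain ⟨x, hx, hd⟩ := key
  obtain ⟨e, hea, heb⟩ := C.glue K1 K2 hK1 hK2 e1 (e2 + x) hd
  refine ⟨e, ?_⟩
  rw [Set.disjoint_union_right]
  constructor
  · refine C.disj_step he1 (x := 0) ?_ (map_zero _)
    rw [add_zero]
    exact hea
  · exact C.disj_step he2 heb hx

theorem exNear_of_points [T2Space B] {Z : Set B} (hZ : IsCompact Z)
    (h : ∀ b ∈ Z, C.ExNear {b}) : C.ExNear Z := by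
  have main : ∀ q : ℕ, ∀ Z' : Set B, IsCompact Z' → Z' ⊆ Z → ∀ c : C.G q,
      C.Cl Z' q c → C.Bd Z' q c := by
    intro q
    induction q with
    | zero =>
      intro Z' _ hsub c hc
      show Disjoint (C.supp c) Z'
      rw [Set.disjoint_right]
      intro b hb
      have h1 : C.Cl {b} 0 c := Set.disjoint_of_subset_right (Set.singleton_subset_iff.2 hb) hc
      have h2 : Disjoint (C.supp c) {b} := h b (hsub hb) 0 c h1
      exact Set.disjoint_singleton_right.1 h2
    | succ q IH =>
      intro Z' hZ' hsub c hc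
      have hp : ∃ (e : C.G q) (K : Set B), IsCompact K ∧ K ⊆ Z' ∧ Z' ⊆ K ∧
          Disjoint (C.supp (c - C.d q e)) K := by
        refine hZ'.induction_on (p := fun s => ∃ (e : C.G q) (K : Set B), IsCompact K ∧ K ⊆ Z' ∧
          s ⊆ K ∧ Disjoint (C.supp (c - C.d q e)) K) ?_ ?_ ?_ ?_
        · exact ⟨0, ∅, isCompact_empty, Set.empty_subset _, le_refl _,
            Set.disjoint_empty _⟩
        · rintro s t hst ⟨e, K, h1, h2, h3, h4⟩
          exact ⟨e, K, h1, h2, hst.trans h3, h4⟩
        · rintro s t ⟨e1, K1, a1, a2, a3, a4⟩ ⟨e2, K2, b1, b2, b3, b4⟩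
          obtain ⟨e, he⟩ := C.glue_prim IH a1 b1 (a1.inter b1) (a2.trans hsub) c e1 e2 a4 b4
          exact ⟨e, K1 ∪ K2, a1.union b1, Set.union_subset a2 b2,
            Set.union_subset_union a3 b3, he⟩
        · intro b hb
          have h1 : C.Cl {b} (q + 1) c :=
            Set.disjoint_of_subset_right (Set.singleton_subset_iff.2 hb) hc
          obtain ⟨e, he⟩ := h b (hsub hb) (q + 1) c h1
          have hbF : b ∉ C.supp (c - C.d q e) := Set.disjoint_singleton_right.1 he
          have hF : IsCompact (C.supp (c - C.d q e) ∩ Z') := by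
            rw [Set.inter_comm]
            exact hZ'.inter_right (C.closed _)
          have hdis : Disjoint (C.supp (c - C.d q e) ∩ Z') {b} :=
            Set.disjoint_singleton_right.2 fun hh => hbF hh.1
          obtain ⟨U, V, hU, hV, hFU, hbV, hUV⟩ :=
            SeparatedNhds.of_isCompact_isCompact hF isCompact_singleton hdis
          refine ⟨V ∩ Z', Filter.inter_mem (mem_nhdsWithin_of_mem_nhds
            (hV.mem_nhds (hbV rfl))) self_mem_nhdsWithin, e, Z' \ U, hZ'.diff hU,
            Set.sdiff_subset, ?_, ?_⟩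
          · rintro y ⟨hyV, hyZ⟩
            exact ⟨hyZ, fun hyU => Set.disjoint_left.1 hUV hyU hyV⟩
          · rw [Set.disjoint_left]
            rintro y hy ⟨hyZ, hyU⟩
            exact hyU (hFU ⟨hy, hyZ⟩)
      obtain ⟨e, K, _, _, h3, h4⟩ := hp
      exact ⟨e, Set.disjoint_of_subset_right h3 h4⟩
  intro q c hc
  exact main q Z hZ le_rfl c hc

end SCx

end Pool.Agent.TD
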