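import Pool.Agent.TD.H.H1

/-! Block H2: exactness near compact sets implies global exactness, also with compact supports. -/

open scoped Topology

namespace Pool.Agent.TD

namespace SCx

variable {B : Type} [TopologicalSpace B] (C : SCx B)

/-- `a = b` near `Z`. -/
def Nr (Z : Set B) {q : ℕ} (a b : C.G q) : Prop := Disjoint (C.supp (a - b)) Z

variable {C}

theorem Nr.refl (Z : Set B) {q : ℕ} (a : C.G q) : C.Nr Z a a := by
  unfold Nr
  rw [sub_self, C.supp_zero]
  exact Set.empty_disjoint Z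

theorem Nr.symm {Z : Set B} {q : ℕ} {a b : C.G q} (h : C.Nr Z a b) : C.Nr Z b a := by
  unfold Nr at h ⊢
  rwa [← neg_sub, C.supp_neg]

theorem Nr.trans {Z : Set B} {q : ℕ} {a b c : C.G q} (h1 : C.Nr Z a b) (h2 : C.Nr Z b c) :
    C.Nr Z a c := by
  unfold Nr at h1 h2 ⊢
  rw [← sub_add_sub_cancel a b c]
  exact Set.disjoint_of_subset_left (C.supp_add _ _) (Set.disjoint_union_left.2 ⟨h1, h2⟩)

theorem Nr.mono {Z Z' : Set B} {q : ℕ} {a b : C.G q} (h : C.Nr Z a b) (hZ : Z' ⊆ Z) :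
    C.Nr Z' a b := Set.disjoint_of_subset_right hZ h

theorem Nr.d {Z : Set B} {q : ℕ} {a b : C.G q} (h : C.Nr Z a b) :
    C.Nr Z (C.d q a) (C.d q b) := by
  unfold Nr at h ⊢
  rw [← map_sub]
  exact Set.disjoint_of_subset_left (C.supp_d _) h

theorem Nr.cl {Z : Set B} {q : ℕ} {a b : C.G q} (h : C.Nr Z (C.d q a) (C.d q b)) :
    C.Cl Z q (a - b) := by
  unfold Nr at h
  unfold Cl
  rwa [map_sub]

variable (C)

/-- Gluing along an exhaustion of a closed set. -/
theorem inf_closed [T2Space B] (hC : C.Complete) (K : CompactExhaustion B) {Z : Set B}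
    (hZ : IsClosed Z) (q : ℕ) (c : ℕ → C.G q)
    (h : ∀ n, Disjoint (C.supp (c (n + 1) - c n)) (Z ∩ K n)) :
    ∃ c' : C.G q, ∀ n, Disjoint (C.supp (c' - c (n + 1))) (Z ∩ K n) := by
  have step : ∀ (n : ℕ) (a : C.G q), C.Nr (Z ∩ K n) a (c n) → ∃ b : C.G q,
      C.Nr (K n) b a ∧ C.Nr (Z ∩ K (n + 1)) b (c (n + 1)) := by
    intro n a ha
    have h1 : C.Nr (Z ∩ K n) a (c (n + 1)) := ha.trans (Nr.symm (C := C) (h n))
    have h2 : C.Nr (K n ∩ (Z ∩ K (n + 1))) a (c (n + 1)) := by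
      refine h1.mono ?_
      rintro b ⟨hb1, hb2, -⟩
      exact ⟨hb2, hb1⟩
    exact C.glue (K n) (Z ∩ K (n + 1)) (K.isCompact n)
      ((K.isCompact (n + 1)).inter_left hZ) a (c (n + 1)) h2
  choose! f hf1 hf2 using step
  let c1 : ℕ → C.G q := fun n => Nat.rec (c 0) (fun n a => f n a) n
  have hc1 : ∀ n, C.Nr (Z ∩ K n) (c1 n) (c n) := by
    intro n
    induction n with
    | zero => exact Nr.refl _ _
    | succ n ih => exact hf2 n (c1 n) ih
  have hc2 : ∀ n, C.Nr (K n) (c1 (n + 1)) (c1 n) := fun n => hf1 n (c1 n) (hc1 n)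
  obtain ⟨c', hc'⟩ := hC.inf K q c1 hc2
  refine ⟨c', fun n => ?_⟩
  have h1 : C.Nr (Z ∩ K n) c' (c1 n) := Nr.mono (C := C) (hc' n) Set.inter_subset_right
  exact (h1.trans (hc1 n)).trans (Nr.symm (C := C) (h n))

theorem exists_closed {Z : Set B} (h : C.ExNear Z) (q : ℕ) (a : C.G q) (ha : C.Cl Z q a) :
    ∃ b : C.G q, C.d q b = 0 ∧ C.Nr Z a b := by
  have h1 := h q a ha
  match q, a, h1 with
  | 0, a, h1 =>
    refine ⟨0, map_zero _, ?_⟩
    unfold Nr
    rw [sub_zero]
    exact h1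
  | q + 1, a, ⟨g, hg⟩ => exact ⟨C.d q g, C.dd q g, hg⟩

/-- Exactness near closed sets. -/
theorem exNear_closed [T2Space B] (hC : C.Complete) (K : CompactExhaustion B) {Z : Set B}
    (hZ : IsClosed Z) (h : ∀ b ∈ Z, C.ExNear {b}) : C.ExNear Z := by
  have hK : ∀ n, C.ExNear (Z ∩ K n) := fun n =>
    C.exNear_of_points ((K.isCompact n).inter_left hZ) fun b hb => h b hb.1
  intro q c hc
  match q, c, hc with
  | 0, c, hc =>
    show Disjoint (C.supp c) Z
    rw [Set.disjoint_right]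
    intro b hb
    have h1 : C.Cl {b} 0 c := Set.disjoint_of_subset_right (Set.singleton_subset_iff.2 hb) hc
    exact Set.disjoint_singleton_right.1 (h b hb 0 c h1)
  | q + 1, c, hc =>
    have hcl : ∀ n, C.Cl (Z ∩ K n) (q + 1) c := fun n =>
      Set.disjoint_of_subset_right Set.inter_subset_left hc
    have ex0 : ∀ n, ∃ e : C.G q, C.Nr (Z ∩ K n) c (C.d q e) := fun n => hK n (q + 1) c (hcl n)
    have step : ∀ (n : ℕ) (a : C.G q), C.Nr (Z ∩ K n) c (C.d q a) → ∃ b : C.G q,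
        C.Nr (Z ∩ K n) b a ∧ C.Nr (Z ∩ K (n + 1)) c (C.d q b) := by
      intro n a ha
      obtain ⟨e, he⟩ := ex0 (n + 1)
      have hsub : Z ∩ K n ⊆ Z ∩ K (n + 1) :=
        Set.inter_subset_inter_right _ (K.subset_succ n)
      have h1 : C.Nr (Z ∩ K n) (C.d q a) (C.d q e) := ha.symm.trans (he.mono hsub)
      obtain ⟨g, hg1, hg2⟩ := C.exists_closed (hK n) q (a - e) h1.cl
      refine ⟨e + g, ?_, ?_⟩
      · refine Nr.symm (C := C) ?_
        show Disjoint (C.supp (a - (e + g))) _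
        rw [← sub_sub]
        exact hg2
      · have e1 : C.d q (e + g) = C.d q e := by rw [map_add, hg1, add_zero]
        rw [e1]
        exact he
    choose! f hf1 hf2 using step
    obtain ⟨e0, he0⟩ := ex0 0
    let e1 : ℕ → C.G q := fun n => Nat.rec e0 (fun n a => f n a) n
    have h1 : ∀ n, C.Nr (Z ∩ K n) c (C.d q (e1 n)) := by
      intro n
      induction n with
      | zero => exact he0
      | succ n ih => exact hf2 n (e1 n) ih
    have h2 : ∀ n, C.Nr (Z ∩ K n) (e1 (n + 1)) (e1 n) := fun n => hf1 n (e1 n) (h1 n)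
    obtain ⟨e, he⟩ := C.inf_closed hC K hZ q e1 h2
    refine ⟨e, ?_⟩
    rw [Set.disjoint_right]
    intro b hb
    obtain ⟨n, hn⟩ := K.exists_mem b
    have h3 : C.Nr (Z ∩ K n) e (e1 (n + 1)) := he n
    have h4 : C.Nr (Z ∩ K n) c (C.d q (e1 (n + 1))) :=
      (h1 (n + 1)).mono (Set.inter_subset_inter_right _ (K.subset_succ n))
    have h5 : C.Nr (Z ∩ K n) c (C.d q e) := h4.trans h3.d.symm
    exact Set.disjoint_right.1 h5 ⟨hb, hn⟩

theorem ex_global [T2Space B] (hC : C.Complete) (K : CompactExhaustion B)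
    (h : ∀ b, C.ExNear {b}) (q : ℕ) (c : C.G q) (hc : C.d q c = 0) : C.BdG q c := by
  have h1 : C.ExNear Set.univ := C.exNear_closed hC K isClosed_univ fun b _ => h b
  have h2 : C.Cl Set.univ q c := by
    unfold Cl
    rw [hc, C.supp_zero]
    exact Set.empty_disjoint _
  have h3 := h1 q c h2
  match q, c, h3 with
  | 0, c, h3 => exact hC.sep 0 c (Set.disjoint_univ.1 h3)
  | q + 1, c, ⟨e, he⟩ => exact ⟨e, sub_eq_zero.1 (hC.sep _ _ (Set.disjoint_univ.1 he))⟩

theorem ex_compact [T2Space B] (hC : C.Complete) (K : CompactExhaustion B)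
    (h : ∀ b, C.ExNear {b}) (q : ℕ) (c : C.G q) (hs : IsCompact (C.supp c))
    (hc : C.d q c = 0) : C.BdC q c := by
  match q, c, hs, hc with
  | 0, c, hs, hc => exact C.ex_global hC K h 0 c hc
  | q + 1, c, hs, hc =>
    obtain ⟨e, he⟩ := C.ex_global hC K h (q + 1) c hc
    obtain ⟨n, hn⟩ := K.exists_superset_of_isCompact hs
    have hn' : C.supp c ⊆ interior (K (n + 1)) := hn.trans (K.subset_interior_succ n)
    have hZ : IsClosed (interior (K (n + 1)))ᶜ := isOpen_interior.isClosed_compl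
    have h1 : C.ExNear (interior (K (n + 1)))ᶜ := C.exNear_closed hC K hZ fun b _ => h b
    have h2 : C.Cl (interior (K (n + 1)))ᶜ q e := by
      unfold Cl
      rw [← he]
      exact Set.disjoint_compl_right_iff_subset.2 hn'
    have h3 := h1 q e h2
    have key : ∀ a : C.G q, Disjoint (C.supp a) (interior (K (n + 1)))ᶜ →
        IsCompact (C.supp a) := fun a ha =>
      (K.isCompact (n + 1)).of_isClosed_subset (C.closed a)
        ((Set.disjoint_compl_right_iff_subset.1 ha).trans interior_subset)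
    match q, c, e, he, h3, key with
    | 0, c, e, he, h3, key => exact ⟨e, key e h3, he⟩
    | q + 1, c, e, he, ⟨g, hg⟩, key =>
      refine ⟨e - C.d q g, key _ hg, ?_⟩
      rw [map_sub, C.dd, sub_zero]
      exact he

end SCx

end Pool.Agent.TD
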